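import Pool.Agent.N549.CG.Stm

/-!
# Project CG (helper549), CNT (helper27): codes and the coefficients of the gas
-/

set_option autoImplicit false

namespace Pool.Agent.N27.CG.Cnt

open MeasureTheory Finset
open scoped ENNReal NNReal
open Pool.Agent.N549.CG
open Pool.Agent.N549.HG (A Z Adm)
open Pool.Agent.N549.AB (Gas Nr pr)

variable {n D : ℕ}

/-! ### The uniform measure -/

theorem lint (g : W n → ℝ≥0∞) : ∫⁻ u, g u ∂unif n = ((2 : ℝ≥0∞) ^ n)⁻¹ * ∑ u, g u := by
  unfold unif
  rw [lintegral_smul_measure, lintegral_count, tsum_fintype, smul_eq_mul]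

theorem two_ne (n : ℕ) : ((2 : ℝ≥0∞) ^ n) ≠ 0 := pow_ne_zero _ two_ne_zero

theorem two_top (n : ℕ) : ((2 : ℝ≥0∞) ^ n) ≠ ∞ := ENNReal.pow_ne_top (by simp)

theorem prob (n : ℕ) : IsProbabilityMeasure (unif n) := by
  refine ⟨?_⟩
  rw [← lintegral_one, lint]
  rw [Finset.sum_const, Finset.card_univ, nsmul_eq_mul, mul_one]
  have h1 : Fintype.card (W n) = 2 ^ n := by simp [W]
  rw [h1]
  push_cast
  exact ENNReal.inv_mul_cancel (two_ne n) (two_top n)

/-! ### The balls -/

/-- the positions at which two words differ -/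
def df (u y : W n) : Finset (Fin n) := univ.filter fun i => u i ≠ y i

/-- the word which differs from `u` at the positions in `s` -/
def fl (u : W n) (s : Finset (Fin n)) : W n := fun i => if i ∈ s then !(u i) else u i

theorem fl_ne (u : W n) (s : Finset (Fin n)) (i : Fin n) : u i ≠ fl u s i ↔ i ∈ s := by
  unfold fl
  by_cases hi : i ∈ s
  · rw [if_pos hi]
    cases u i <;> simp [hi]
  · rw [if_neg hi]
    simp [hi]

theorem df_fl (u : W n) (s : Finset (Fin n)) : df u (fl u s) = s := by
  ext i
  unfold df
  rw [mem_filter, fl_ne]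
  simp

theorem fl_df (u y : W n) : fl u (df u y) = y := by
  funext i
  unfold fl df
  by_cases hi : u i = y i
  · simp [hi]
  · rw [if_pos (by simp [hi])]
    revert hi
    cases u i <;> cases y i <;> simp

theorem card_sphere (u : W n) (j : ℕ) : #{y : W n | hammingDist u y = j} = n.choose j := by
  have h1 : #(powersetCard j (univ : Finset (Fin n))) = n.choose j := by
    rw [card_powersetCard, card_univ, Fintype.card_fin]
  rw [← h1]
  refine Finset.card_bij' (fun y _ => df u y) (fun s _ => fl u s) ?_ ?_ ?_ ?_
  · intro y hy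
    rw [mem_powersetCard_univ]
    rw [mem_filter] at hy
    exact hy.2
  · intro s hs
    rw [mem_powersetCard_univ] at hs
    rw [mem_filter]
    refine ⟨mem_univ _, ?_⟩
    have h2 := df_fl u s
    show #(df u (fl u s)) = j
    rw [h2, hs]
  · intro y _
    exact fl_df u y
  · intro s _
    exact df_fl u s

theorem card_ball (u : W n) (D : ℕ) : #{y : W n | hammingDist u y ≤ D} = V n D := by
  unfold V
  rw [Finset.card_eq_sum_card_fiberwise (f := fun y => hammingDist u y) (t := range (D + 1))]
  · refine Finset.sum_congr rfl fun j hj => ?_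
    rw [← card_sphere u j]
    congr 1
    ext y
    simp only [mem_filter, mem_univ, true_and]
    rw [mem_range] at hj
    constructor
    · rintro ⟨_, h⟩
      exact h
    · intro h
      exact ⟨by omega, h⟩
  · intro y hy
    have hy' : hammingDist u y ≤ D := (mem_filter.1 (Finset.mem_coe.1 hy)).2
    rw [Finset.coe_range, Set.mem_Iio]
    exact Nat.lt_succ_of_le hy'

theorem V_pos (n D : ℕ) : 0 < V n D := by
  unfold V
  refine Finset.sum_pos' (fun _ _ => Nat.zero_le _) ⟨0, ?_, ?_⟩
  · rw [mem_range]; omega
  · rw [Nat.choose_zero_right]; exact one_pos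

/-! ### Translations -/

/-- the translation which exchanges `u` and `v` -/
def tr (u v : W n) : W n ≃ W n where
  toFun y := fun i => xor (y i) (xor (u i) (v i))
  invFun y := fun i => xor (y i) (xor (u i) (v i))
  left_inv y := by
    funext i
    show xor (xor (y i) (xor (u i) (v i))) (xor (u i) (v i)) = y i
    cases y i <;> cases u i <;> cases v i <;> rfl
  right_inv y := by
    funext i
    show xor (xor (y i) (xor (u i) (v i))) (xor (u i) (v i)) = y i
    cases y i <;> cases u i <;> cases v i <;> rfl

theorem tr_u (u v : W n) : tr u v u = v := by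
  funext i
  show xor (u i) (xor (u i) (v i)) = v i
  cases u i <;> cases v i <;> rfl

theorem tr_dist (u v x y : W n) : hammingDist (tr u v x) (tr u v y) = hammingDist x y := by
  unfold hammingDist
  congr 1
  ext i
  simp only [mem_filter, mem_univ, true_and]
  show xor (x i) (xor (u i) (v i)) ≠ xor (y i) (xor (u i) (v i)) ↔ x i ≠ y i
  cases x i <;> cases y i <;> cases u i <;> cases v i <;> simp

theorem cF_tr (u v x y : W n) : cF n D (tr u v x) (tr u v y) = cF n D x y := by
  unfold cF
  rw [tr_dist]

theorem A_tr (u v : W n) (k : ℕ) : ∀ φ : W n → ℝ≥0∞,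
    A (unif n) (cF n D) k (fun y => φ (tr u v y)) = A (unif n) (cF n D) k φ := by
  induction k with
  | zero => intro φ; rfl
  | succ k ih =>
    intro φ
    simp only [A]
    rw [lint, lint]
    congr 1
    conv_rhs => rw [← Equiv.sum_comp (tr u v)]
    refine Finset.sum_congr rfl fun x _ => ?_
    rw [← ih fun y => φ y * cF n D (tr u v x) y]
    congr 2
    funext y
    rw [cF_tr]

theorem gas (n D : ℕ) : Gas (unif n) (cF n D) ((V n D : ℝ) / 2 ^ n) where
  adm :=
    { meas := Measurable.of_discrete
      symm := fun x y => by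
        unfold cF
        rw [hammingDist_comm]
      le_one := fun x y => by
        unfold cF
        split_ifs
        · exact zero_le_one
        · exact le_rfl }
  zo := fun x y => by
    unfold cF
    split_ifs
    · exact Or.inl rfl
    · exact Or.inr rfl
  pos := by
    have := V_pos n D
    positivity
  vol := fun u => by
    have h1 : MeasurableSet (Nr (cF n D) u) := MeasurableSet.of_discrete
    have h2 : ∀ y, (Nr (cF n D) u).indicator (fun _ => (1 : ℝ≥0∞)) y =
        if hammingDist u y ≤ D then 1 else 0 := by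
      intro y
      by_cases hy : hammingDist u y ≤ D
      · rw [if_pos hy, Set.indicator_of_mem]
        show cF n D u y = 0
        unfold cF
        rw [if_pos hy]
      · rw [if_neg hy, Set.indicator_of_notMem]
        intro h
        have h' : cF n D u y = 0 := h
        unfold cF at h'
        rw [if_neg hy] at h'
        exact one_ne_zero h'
    have h3 : unif n (Nr (cF n D) u) = ((2 : ℝ≥0∞) ^ n)⁻¹ * V n D := by
      rw [← lintegral_indicator_one h1, lint, ← card_ball u D]
      congr 1
      have h4 : ∀ y, (Nr (cF n D) u).indicator (1 : W n → ℝ≥0∞) y =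
          if hammingDist u y ≤ D then 1 else 0 := h2
      simp only [h4]
      rw [Finset.sum_ite, Finset.sum_const_zero, add_zero, Finset.sum_const, nsmul_eq_mul, mul_one]
    rw [h3, ENNReal.ofReal_div_of_pos (by positivity), ENNReal.ofReal_natCast,
      ENNReal.ofReal_pow (by norm_num), ENNReal.ofReal_ofNat, ENNReal.div_eq_inv_mul]
  hom := fun c u v => by
    unfold Z
    refine tsum_congr fun k => ?_
    congr 1
    rw [← A_tr u v k fun y => c * cF n D v y]
    congr 1
    funext y
    have h1 := cF_tr (D := D) u v u y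
    rw [tr_u] at h1
    rw [h1]

/-! ### The codes -/

/-- the codes with `k` words in the set `B` -/
def cod (D : ℕ) (B : Finset (W n)) (k : ℕ) : Finset (Finset (W n)) :=
  B.powerset.filter fun C => #C = k ∧ ∀ x ∈ C, ∀ y ∈ C, x ≠ y → D < hammingDist x y

theorem mem_cod {B : Finset (W n)} {k : ℕ} {C : Finset (W n)} :
    C ∈ cod D B k ↔ C ⊆ B ∧ #C = k ∧ ∀ x ∈ C, ∀ y ∈ C, x ≠ y → D < hammingDist x y := by
  unfold cod
  rw [mem_filter, mem_powerset]

theorem cod_univ (D k : ℕ) : #(cod D (univ : Finset (W n)) k) = codes n D k := by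
  unfold cod codes
  rw [powerset_univ]

theorem cod_zero (B : Finset (W n)) : #(cod D B 0) = 1 := by
  have h : cod D B 0 = {∅} := by
    ext C
    rw [mem_cod, mem_singleton]
    constructor
    · rintro ⟨-, h, -⟩
      exact card_eq_zero.1 h
    · rintro rfl
      exact ⟨empty_subset _, rfl, fun x hx => absurd hx (notMem_empty _)⟩
  rw [h, card_singleton]

/-- the words of `B` which are far from `u` -/
def away (D : ℕ) (B : Finset (W n)) (u : W n) : Finset (W n) := B.filter fun y => D < hammingDist u y

theorem cod_link (B : Finset (W n)) (k : ℕ) {u : W n} (hu : u ∈ B) :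
    #((cod D B (k + 1)).filter fun C => u ∈ C) = #(cod D (away D B u) k) := by
  refine Finset.card_bij' (fun C _ => C.erase u) (fun C _ => insert u C) ?_ ?_ ?_ ?_
  · intro C hC
    rw [mem_filter, mem_cod] at hC
    obtain ⟨⟨h1, h2, h3⟩, h4⟩ := hC
    rw [mem_cod]
    refine ⟨?_, ?_, ?_⟩
    · intro y hy
      rw [mem_erase] at hy
      unfold away
      rw [mem_filter]
      exact ⟨h1 hy.2, h3 u h4 y hy.2 hy.1.symm⟩
    · rw [card_erase_of_mem h4, h2]
      rfl
    · intro x hx y hy
      exact h3 x (mem_of_mem_erase hx) y (mem_of_mem_erase hy)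
  · intro C hC
    rw [mem_cod] at hC
    obtain ⟨h1, h2, h3⟩ := hC
    have h4 : ∀ y ∈ C, y ∈ B ∧ D < hammingDist u y := by
      intro y hy
      have := h1 hy
      unfold away at this
      rwa [mem_filter] at this
    have h5 : u ∉ C := by
      intro h
      have := (h4 u h).2
      rw [hammingDist_self] at this
      omega
    rw [mem_filter, mem_cod]
    refine ⟨⟨?_, ?_, ?_⟩, mem_insert_self _ _⟩
    · intro y hy
      rcases mem_insert.1 hy with rfl | hy
      · exact hu
      · exact (h4 y hy).1
    · rw [card_insert_of_notMem h5, h2]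
    · intro x hx y hy hxy
      rcases mem_insert.1 hx with hx1 | hx1
      · rcases mem_insert.1 hy with hy1 | hy1
        · exact absurd (hx1.trans hy1.symm) hxy
        · rw [hx1]
          exact (h4 y hy1).2
      · rcases mem_insert.1 hy with hy1 | hy1
        · rw [hammingDist_comm, hy1]
          exact (h4 x hx1).2
        · exact h3 x hx1 y hy1 hxy
  · intro C hC
    rw [mem_filter] at hC
    exact insert_erase hC.2
  · intro C hC
    rw [mem_cod] at hC
    refine erase_insert ?_
    intro h
    have h1 := hC.1 h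
    unfold away at h1
    rw [mem_filter, hammingDist_self] at h1
    omega

theorem cod_succ (B : Finset (W n)) (k : ℕ) :
    ∑ u ∈ B, #(cod D (away D B u) k) = (k + 1) * #(cod D B (k + 1)) := by
  have h1 : ∑ u ∈ B, #(cod D (away D B u) k) =
      ∑ u ∈ B, #(Finset.bipartiteAbove (fun (u : W n) (C : Finset (W n)) => u ∈ C)
        (cod D B (k + 1)) u) :=
    Finset.sum_congr rfl fun u hu => (cod_link B k hu).symm
  rw [h1, Finset.sum_card_bipartiteAbove_eq_sum_card_bipartiteBelow]
  have h2 : ∀ C ∈ cod D B (k + 1), #(Finset.bipartiteBelow (fun (u : W n) (C : Finset (W n)) => u ∈ C)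
      B C) = k + 1 := by
    intro C hC
    rw [mem_cod] at hC
    rw [← hC.2.1]
    congr 1
    ext u
    rw [mem_bipartiteBelow]
    exact ⟨fun h => h.2, fun h => ⟨hC.1 h, h⟩⟩
  rw [Finset.sum_congr rfl h2, Finset.sum_const, smul_eq_mul, mul_comm]

theorem A_cod (k : ℕ) : ∀ B : Finset (W n),
    A (unif n) (cF n D) k (fun y => if y ∈ B then 1 else 0) =
      (((2 : ℝ≥0∞) ^ n)⁻¹) ^ k * (k.factorial * #(cod D B k) : ℕ) := by
  induction k with
  | zero =>
    intro B
    rw [cod_zero]
    simp [A]
  | succ k ih =>
    intro B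
    simp only [A]
    rw [lint]
    have h1 : ∀ u : W n, (if u ∈ B then (1 : ℝ≥0∞) else 0) *
        A (unif n) (cF n D) k (fun y => (if y ∈ B then 1 else 0) * cF n D u y) =
        if u ∈ B then (((2 : ℝ≥0∞) ^ n)⁻¹) ^ k * (k.factorial * #(cod D (away D B u) k) : ℕ)
        else 0 := by
      intro u
      by_cases hu : u ∈ B
      · rw [if_pos hu, if_pos hu, one_mul, ← ih]
        congr 1
        funext y
        unfold cF away
        by_cases hy : y ∈ B <;> by_cases hd : hammingDist u y ≤ D <;> simp [hy, hd]
      · rw [if_neg hu, if_neg hu, zero_mul]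
    simp only [h1]
    rw [Finset.sum_ite_mem, Finset.univ_inter, ← Finset.mul_sum, ← Nat.cast_sum, ← Finset.mul_sum,
      cod_succ, ← mul_assoc, ← pow_succ', Nat.factorial_succ]
    congr 2
    ring

theorem cnt : S_CNT := by
  intro n D
  refine ⟨prob n, gas n D, fun k => ?_⟩
  unfold pr
  have h1 := A_cod (D := D) k (univ : Finset (W n))
  simp only [mem_univ, if_true] at h1
  rw [h1, cod_univ, ENNReal.toReal_mul, ENNReal.toReal_pow, ENNReal.toReal_inv, ENNReal.toReal_pow,
    ENNReal.toReal_ofNat, ENNReal.toReal_natCast, inv_pow, div_eq_inv_mul]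
  push_cast
  rfl

end Pool.Agent.N27.CG.Cnt
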